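import Mathlib

set_option autoImplicit false
open Matrix

namespace Pool.Agent.Results.MP_55559b_an.Square

/-- `F` is a face of the cone `K` -/
def IsFace {n : ℕ} (K F : Set (Fin n → ℝ)) : Prop :=
  F ⊆ K ∧ IsClosed F ∧ (0 : Fin n → ℝ) ∈ F ∧ (∀ x ∈ F, ∀ y ∈ F, x + y ∈ F) ∧
    (∀ t : ℝ, 0 ≤ t → ∀ x ∈ F, t • x ∈ F) ∧ ∀ x ∈ K, ∀ y ∈ K, x + y ∈ F → x ∈ F ∧ y ∈ F

/-- the spectrahedral cone of `A₁, …, Aₙ` -/
def Spec {n m : ℕ} (A : Fin n → Matrix (Fin m) (Fin m) ℝ) : Set (Fin n → ℝ) :=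
  {x | (∑ i, x i • A i).PosSemidef}

def A : Fin 5 → Matrix (Fin 6) (Fin 6) ℝ :=
  ![diagonal ![-1, 1, 0, 0, 0, 0], diagonal ![0, 0, -1, 1, 0, 0], diagonal ![1, 1, 1, 1, 1, 0],
    !![1, 0, 0, 0, 0, 0; 0, 0, 0, 0, 0, 0; 0, 0, 0, 0, 0, 0; 0, 0, 0, 0, 0, 0;
      0, 0, 0, 0, 0, 1; 0, 0, 0, 0, 1, 0], diagonal ![0, 0, 0, 0, 0, 1]]

lemma symm (i : Fin 5) : (A i).IsSymm := by
  fin_cases i <;> simp [A]
  ext i j; fin_cases i <;> fin_cases j <;> simp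

lemma mem_iff (x : Fin 5 → ℝ) : x ∈ Spec A ↔ ∀ v : Fin 6 → ℝ,
    0 ≤ (x 2 - x 0 + x 3) * v 0 ^ 2 + (x 2 + x 0) * v 1 ^ 2 + (x 2 - x 1) * v 2 ^ 2 +
      (x 2 + x 1) * v 3 ^ 2 + (x 2 * v 4 ^ 2 + 2 * x 3 * v 4 * v 5 + x 4 * v 5 ^ 2) := by
  have e : ∀ v : Fin 6 → ℝ, star v ⬝ᵥ (∑ i, x i • A i) *ᵥ v =
      (x 2 - x 0 + x 3) * v 0 ^ 2 + (x 2 + x 0) * v 1 ^ 2 + (x 2 - x 1) * v 2 ^ 2 +
      (x 2 + x 1) * v 3 ^ 2 + (x 2 * v 4 ^ 2 + 2 * x 3 * v 4 * v 5 + x 4 * v 5 ^ 2) := by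
    intro v
    have e2 : ∑ i, x i • A i = !![x 2 - x 0 + x 3, 0, 0, 0, 0, 0; 0, x 2 + x 0, 0, 0, 0, 0;
        0, 0, x 2 - x 1, 0, 0, 0; 0, 0, 0, x 2 + x 1, 0, 0;
        0, 0, 0, 0, x 2, x 3; 0, 0, 0, 0, x 3, x 4] := by
      ext i j
      rw [Matrix.sum_apply, Fin.sum_univ_five]
      fin_cases i <;> fin_cases j <;> simp [A] <;> ring
    rw [e2]
    simp [dotProduct, mulVec, Fin.sum_univ_six]
    ring
  simp only [Spec, Set.mem_setOf_eq, posSemidef_iff_dotProduct_mulVec, e, and_iff_right_iff_imp]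
  intro _
  ext i j
  simp only [conjTranspose_apply, star_trivial, Matrix.sum_apply, Matrix.smul_apply]
  exact Finset.sum_congr rfl fun k _ => by rw [(symm k).apply]

def F : Set (Fin 5 → ℝ) := {x | x ∈ Spec A ∧ x 4 = 0}

lemma F_iff (x : Fin 5 → ℝ) : x ∈ F ↔
    x 3 = 0 ∧ x 4 = 0 ∧ 0 ≤ x 2 - x 0 ∧ 0 ≤ x 2 + x 0 ∧ 0 ≤ x 2 - x 1 ∧ 0 ≤ x 2 + x 1 := by
  simp only [F, Set.mem_setOf_eq, mem_iff]
  constructor
  · rintro ⟨h, h4⟩
    have h3 : x 3 = 0 := by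
      by_contra hc
      have := h ![0, 0, 0, 0, 1, -(x 2 + 1) / (2 * x 3)]
      simp [h4] at this
      field_simp at this
      linarith
    refine ⟨h3, h4, by simpa [h3] using h ![1, 0, 0, 0, 0, 0], by simpa using h ![0, 1, 0, 0, 0, 0],
      by simpa using h ![0, 0, 1, 0, 0, 0], by simpa using h ![0, 0, 0, 1, 0, 0]⟩
  · rintro ⟨h3, h4, a, b, c, d⟩
    refine ⟨fun v => ?_, h4⟩
    have : 0 ≤ x 2 := by linarith
    simp only [h3, h4, add_zero, mul_zero, zero_mul]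
    positivity

lemma lim {a b : ℝ} (h : ∀ s : ℝ, |s| ≤ 1 → 0 ≤ s * a + s ^ 2 * b) : a = 0 := by
  by_contra hc
  have ha : 0 < |a| := abs_pos.2 hc
  have hb := abs_nonneg b
  have := h (-a / (|a| + |b|)) (by
    rw [abs_div, abs_neg, abs_of_pos (a := |a| + |b|) (by positivity), div_le_one (by positivity)]
    linarith)
  have e : -a / (|a| + |b|) * a + (-a / (|a| + |b|)) ^ 2 * b =
      a ^ 2 / (|a| + |b|) ^ 2 * (b - (|a| + |b|)) := by field_simp; ring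
  rw [e] at this
  have h2 : 0 < a ^ 2 / (|a| + |b|) ^ 2 := by positivity
  nlinarith [le_abs_self b]

theorem result : ∃ (n m : ℕ) (A : Fin n → Matrix (Fin m) (Fin m) ℝ), (∀ i, (A i).IsSymm) ∧
    ∃ F, IsFace (Spec A) F ∧
      ¬ ∃ P : (Fin n → ℝ) →ₗ[ℝ] (Fin n → ℝ), P ∘ₗ P = P ∧ P '' Spec A = F := by
  refine ⟨5, 6, A, symm, F, ⟨fun x hx => hx.1, ?_, by simp [F_iff], ?_, ?_, ?_⟩, ?_⟩
  · have : F = {x | x 3 = 0} ∩ ({x | x 4 = 0} ∩ ({x | 0 ≤ x 2 - x 0} ∩ ({x | 0 ≤ x 2 + x 0} ∩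
        ({x | 0 ≤ x 2 - x 1} ∩ {x | 0 ≤ x 2 + x 1})))) := Set.ext F_iff
    rw [this]
    refine IsClosed.inter (isClosed_eq ?_ ?_) (IsClosed.inter (isClosed_eq ?_ ?_)
      (IsClosed.inter (isClosed_le ?_ ?_) (IsClosed.inter (isClosed_le ?_ ?_)
      (IsClosed.inter (isClosed_le ?_ ?_) (isClosed_le ?_ ?_))))) <;> fun_prop
  · simp only [F_iff, Pi.add_apply]
    rintro x ⟨a, b, c, d, e, f⟩ y ⟨a', b', c', d', e', f'⟩
    refine ⟨?_, ?_, ?_, ?_, ?_, ?_⟩ <;> linarith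
  · simp only [F_iff, Pi.smul_apply, smul_eq_mul]
    rintro t ht x ⟨a, b, c, d, e, f⟩
    refine ⟨by simp [a], by simp [b], ?_, ?_, ?_, ?_⟩ <;> nlinarith
  · rintro x hx y hy ⟨-, h⟩
    have h1 : 0 ≤ x 4 := by simpa using (mem_iff x).1 hx ![0, 0, 0, 0, 0, 1]
    have h2 : 0 ≤ y 4 := by simpa using (mem_iff y).1 hy ![0, 0, 0, 0, 0, 1]
    rw [Pi.add_apply] at h
    exact ⟨⟨hx, by linarith⟩, ⟨hy, by linarith⟩⟩
  · rintro ⟨P, hP, hK⟩
    have fix : ∀ x ∈ F, P x = x := by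
      intro x hx
      obtain ⟨y, -, rfl⟩ : x ∈ P '' Spec A := hK ▸ hx
      exact LinearMap.congr_fun hP y
    set ψ := P ![0, 0, 0, 1, 0]
    set γ := P ![0, 0, 0, 0, 1]
    have f0 := fix ![0, 0, 1, 0, 0] (by simp [F_iff])
    have f1 := fix ![1, 0, 1, 0, 0] (by simp [F_iff])
    have f2 := fix ![0, 1, 1, 0, 0] (by simp [F_iff])
    have gen : ∀ x y s : ℝ, 0 ≤ 1 - x + s → 0 ≤ 1 + x → 0 ≤ 1 - y → 0 ≤ 1 + y →
        ![x, y, 1, 0, 0] + s • ψ + s ^ 2 • γ ∈ F := by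
      intro x y s a b c d
      have h1 : ![x, y, 1, s, s ^ 2] ∈ Spec A := by
        rw [mem_iff]
        intro v
        simp
        nlinarith [sq_nonneg (v 4 + s * v 5), mul_nonneg a (sq_nonneg (v 0)),
          mul_nonneg b (sq_nonneg (v 1)), mul_nonneg c (sq_nonneg (v 2)),
          mul_nonneg d (sq_nonneg (v 3))]
      have h2 : P ![x, y, 1, s, s ^ 2] ∈ F := hK ▸ Set.mem_image_of_mem P h1
      have e : ![x, y, 1, s, s ^ 2] = x • ![1, 0, 1, 0, 0] + y • ![0, 1, 1, 0, 0] +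
          (1 - x - y) • ![0, 0, 1, 0, 0] + s • ![0, 0, 0, 1, 0] + s ^ 2 • ![0, 0, 0, 0, 1] := by
        ext i; fin_cases i <;> simp
      rw [e] at h2
      simp only [map_add, map_smul, f0, f1, f2] at h2
      convert h2 using 3
      ext i; fin_cases i <;> simp
    have k1 : ψ 2 - ψ 0 - 1 = 0 := lim (b := γ 2 - γ 0) fun s hs => by
      have := ((F_iff _).1 (gen (1 + s) 0 s (by linarith) (by linarith [abs_le.1 hs]) (by norm_num)
        (by norm_num))).2.2.1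
      simp [vecHead, vecTail] at this; linarith
    have k2 : ψ 2 + ψ 0 = 0 := lim (b := γ 2 + γ 0) fun s hs => by
      have := ((F_iff _).1 (gen (-1) 0 s (by linarith [abs_le.1 hs]) (by norm_num) (by norm_num)
        (by norm_num))).2.2.2.1
      simp [vecHead, vecTail] at this; linarith
    have k3 : ψ 2 - ψ 1 = 0 := lim (b := γ 2 - γ 1) fun s hs => by
      have := ((F_iff _).1 (gen 0 1 s (by linarith [abs_le.1 hs]) (by norm_num) (by norm_num)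
        (by norm_num))).2.2.2.2.1
      simp [vecHead, vecTail] at this; linarith
    have k4 : ψ 2 + ψ 1 = 0 := lim (b := γ 2 + γ 1) fun s hs => by
      have := ((F_iff _).1 (gen 0 (-1) s (by linarith [abs_le.1 hs]) (by norm_num) (by norm_num)
        (by norm_num))).2.2.2.2.2
      simp [vecHead, vecTail] at this; linarith
    linarith

end Pool.Agent.Results.MP_55559b_an.Square
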